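import Pool.Agent.H10.Cong
import Pool.Agent.H10.Restr

/-!
Odd degree stability of the two-primary part of the Tate-Shafarevich group and of the
Mordell-Weil group, and its unconditional application to congruent number curves.
-/

set_option autoImplicit false
set_option linter.style.haveILetI false
open scoped Classical

namespace Pool.Agent.Results.MP_78d38b_nt.OddDegreeStability

open NumberField IsDedekindDomain WeierstrassCurve Pool.Agent.H10

/-- Let `L/K` be an extension of number fields of odd degree without new totally positive and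
without new unramified classes, and let `E : y^2 = x (x - a) (x - b)` with `a`, `b` distinct,
nonzero and positive in all real embeddings, such that every prime of `K` not above two which
divides `a b (b - a)` has only one prime of `L` above it. Suppose that `E` is semistable above two
or that two is inert, as made precise in the definitions. Then restriction is a bijection from the
two-primary part of the Tate-Shafarevich group of `E` over `K` to the one over `L`, and `E(K)` has
finite odd index in `E(L)`. The conditions on the classes hold if the class number of `L` is odd,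
totally positive units of `L` are squares and units congruent to a square modulo four are
squares. Under these conditions, if `L` has odd degree over the rationals, two is inert in `L`, and
`N = 1`, or `N = p` with `p = 3` modulo eight and `3` prime to the degree, or `N = 2 p` with `p = 5`
modulo eight, for a prime `p` with only one prime of `L` above it, then the two-primary part of the
Tate-Shafarevich group of `y^2 = x^3 - N^2 x` over `L` vanishes and the Mordell-Weil group over `L`
is finite. -/
theorem result :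
    (∀ (K L : Type) [Field K] [NumberField K] [Field L] [NumberField L] [Algebra K L]
      (a b : 𝓞 K), Odd (Module.finrank K L) → NoNewPositive K L → NoNewUnramified K L →
      a ≠ 0 → b ≠ 0 → a ≠ b → (∀ φ : K →+* ℝ, 0 < φ a ∧ 0 < φ b) →
      (∀ v : HeightOneSpectrum (𝓞 K), (2 : 𝓞 K) ∉ v.asIdeal → a * b * (b - a) ∈ v.asIdeal →
        UniqueOver K L v.asIdeal) →
      (SemistableAtTwo K L a b ∨ InertAtTwo K L a b) →
      ∀ (E : WeierstrassCurve K), E = ⟨0, -((a : K) + b), 0, (a : K) * b, 0⟩ →
      ShaTwoBijective K E L ∧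
      ∃ m : ℕ, Odd m ∧ ∀ P : (E.baseChange L).toAffine.Point,
        ∃ Q : (E.baseChange K).toAffine.Point,
          m • P = WeierstrassCurve.Affine.Point.map (Algebra.ofId K L) Q) ∧
    (∀ (K L : Type) [Field K] [NumberField K] [Field L] [NumberField L] [Algebra K L],
      Odd (NumberField.classNumber L) →
      (∀ u : (𝓞 L)ˣ, (∀ φ : L →+* ℝ, 0 < φ ((u : 𝓞 L) : L)) → IsSquare u) →
      (∀ u : (𝓞 L)ˣ, (∃ s : 𝓞 L, (4 : 𝓞 L) ∣ (u : 𝓞 L) - s ^ 2) → IsSquare u) →
      NoNewPositive K L ∧ NoNewUnramified K L) ∧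
    (∀ (L : Type) [Field L] [NumberField L] (N : ℕ), Odd (Module.finrank ℚ L) →
      Odd (NumberField.classNumber L) →
      (∀ u : (𝓞 L)ˣ, (∀ φ : L →+* ℝ, 0 < φ ((u : 𝓞 L) : L)) → IsSquare u) →
      (∀ u : (𝓞 L)ˣ, (∃ s : 𝓞 L, (4 : 𝓞 L) ∣ (u : 𝓞 L) - s ^ 2) → IsSquare u) →
      Prime (2 : 𝓞 L) →
      (N = 1 ∨ ∃ p : ℕ, p.Prime ∧ UniqueAbove L p ∧
        ((p % 8 = 3 ∧ ¬ 3 ∣ Module.finrank ℚ L ∧ N = p) ∨ (p % 8 = 5 ∧ N = 2 * p))) →
      Sha2Trivial L (⟨0, 0, 0, -(N : L) ^ 2, 0⟩ : WeierstrassCurve L) ∧
      Finite (⟨0, 0, 0, -(N : L) ^ 2, 0⟩ : WeierstrassCurve L).toAffine.Point) := by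
  refine ⟨?_, fun K L _ _ _ _ _ hcl h1 h2 => ⟨noNewPositive_of hcl h1, noNewUnramified_of hcl h2⟩,
    ?_⟩
  · intro K L _ _ _ _ _ a b hodd R1 R2 ha hb hab hpos hbad htwo E hE
    have h : IsCub E 0 (a : K) (b : K) := by rw [hE]; exact isCub_legendre ha hb hab
    have H := newTrivial hodd R1 R2 hpos hbad htwo
    refine ⟨shaTwoBijective rfl (sha_bijOn hodd h rfl H), ?_⟩
    obtain ⟨m, hm, hP⟩ := mw_odd (V := E) (V' := E.baseChange L) hodd h rfl H
    refine ⟨m, hm, fun P => ?_⟩
    obtain ⟨Q, hQ⟩ := hP P
    refine ⟨Q, ?_⟩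
    rw [hQ]
    exact (map_eq_pm (S := K) E (Algebra.ofId K L) Q).symm
  · intro L _ _ N hodd hcl h1 h2 htwo hN
    rcases hN with rfl | ⟨p, hp, hu, ⟨h8, h3, rfl⟩ | ⟨h8, rfl⟩⟩
    · refine cong_main (p := 1) (Or.inl ⟨rfl, rfl⟩) hodd hcl h1 h2 htwo ?_ (by norm_num)
      intro P Q hP _ h _
      exact absurd ((Ideal.eq_top_iff_one _).mpr (by simpa using h)) hP.ne_top
    · exact cong_main (Or.inr (Or.inl ⟨hp, h8, rfl⟩)) hodd hcl h1 h2 htwo hu (fun _ => h3)
    · exact cong_main (Or.inr (Or.inr ⟨hp, h8, rfl⟩)) hodd hcl h1 h2 htwo hu (by omega)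

end Pool.Agent.Results.MP_78d38b_nt.OddDegreeStability
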