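import Pool.Agent.H55.T3.S11
import Pool.Agent.H55.T3.S12
import Pool.Agent.H55.T3.BadE
import Pool.Agent.H55.T3.NF
import Pool.Agent.H55.T3.Ex6
import Pool.Agent.H55.T3.Exw

/-!
The three-primary part of the Tate-Shafarevich group in cyclotomic towers over totally real fields
`k` unramified above three, for the elliptic curves over `k` with a `k`-rational subgroup of order
three.
-/

set_option autoImplicit false
open scoped Classical

namespace Pool.Agent.H55.Parked.ThreeIsogenyExplicit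

open NumberField IsDedekindDomain WeierstrassCurve Pool.Agent.H10

/-- `κ` is totally real and contained in a Galois extension of the rationals whose degree over a
subfield of a cyclotomic field is a power of three. -/
def ThreeType (κ : Type) [Field κ] [NumberField κ] : Prop :=
  IsTotallyReal κ ∧ ∃ (F : Type) (_ : Field F) (_ : NumberField F) (F₀ : IntermediateField ℚ F),
    IsGalois ℚ F ∧ (∃ m : ℕ, m ≠ 0 ∧ Nonempty (F₀ →+* CyclotomicField m ℚ)) ∧
    (∃ r : ℕ, Module.finrank F₀ F = 3 ^ r) ∧ Nonempty (κ →+* F)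

/-- `D` is a square in a field of three-type which contains `k`. -/
def SquareThreeType (k : Type) [Field k] [NumberField k] (D : 𝓞 k) : Prop :=
  ∃ (κ : Type) (_ : Field κ) (_ : NumberField κ) (_ : Algebra k κ) (t : κ),
    ThreeType κ ∧ t ^ 2 = algebraMap k κ D

/-- `L` is a totally real field between `k` and `k(ζ_{p^n})` for some `n`. -/
def Layer (p : ℕ) (k L : Type) [Field k] [NumberField k] [Field L] [NumberField L]
    [Algebra k L] : Prop :=
  IsTotallyReal L ∧ ∃ n : ℕ, Nonempty (L →ₐ[k] CyclotomicField (p ^ (n + 1)) k)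

/-- The curve `y^2 = x^3 + D (a x + b)^2`, with the group of order three of the points with
`x = 0`. -/
def curve {K : Type} [Field K] (D a b : K) : WeierstrassCurve K :=
  ⟨0, D * a ^ 2, 0, 2 * D * a * b, D * b ^ 2⟩

/-- The curve `y^2 = x^3 - 27 D (a x + c)^2`, `c = 27 b - 4 D a^3`, the quotient of `curve D a b`
by its group of order three. -/
def dual {K : Type} [Field K] (D a b : K) : WeierstrassCurve K :=
  ⟨0, -27 * D * a ^ 2, 0, -54 * D * a * (27 * b - 4 * D * a ^ 3),
    -27 * D * (27 * b - 4 * D * a ^ 3) ^ 2⟩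

/-- Restriction is a bijection from the three-primary part of the Tate-Shafarevich group of `E`
over `K` to the one over `L`, and the group of the points over `K` has an exponent prime to three
in the group of the points over `L`. -/
def Stable (K L : Type) [Field K] [NumberField K] [Field L] [NumberField L] [Algebra K L]
    (E : WeierstrassCurve K) : Prop :=
  H55T3.ShaThreeBijective K E L ∧
    ∃ m : ℕ, ¬ 3 ∣ m ∧ ∀ P : (E.baseChange L).toAffine.Point,
      ∃ Q : (E.baseChange K).toAffine.Point,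
        m • P = WeierstrassCurve.Affine.Point.map (Algebra.ofId K L) Q

/-- `P` is a set of points which represents all classes modulo `3 E(L)`. -/
def RepresentsPoints (L : Type) [Field L] (W : WeierstrassCurve L)
    (P : Finset W.toAffine.Point) : Prop :=
  ∀ X : W.toAffine.Point, ∃ p ∈ P, ∃ S : W.toAffine.Point, X = p + 3 • S

/-- `T` is a set of cochains which represents all classes of the Tate-Shafarevich group which are
killed by three. -/
def RepresentsSha (L : Type) [Field L] [NumberField L] (W : WeierstrassCurve L)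
    (T : Finset ((AlgebraicClosure L ≃ₐ[L] AlgebraicClosure L) →
      (W.baseChange (AlgebraicClosure L)).toAffine.Point)) : Prop :=
  ∀ f, IsCocycle L W f → IsLocTriv L W f → IsCobound L W (fun σ => 3 • f σ) →
    ∃ t ∈ T, IsCobound L W (fun σ => f σ - t σ)

/-- The three-primary part of the Tate-Shafarevich group of `W` over `L` is zero. -/
def ShaThreeTrivial (L : Type) [Field L] [NumberField L] (W : WeierstrassCurve L) : Prop :=
  ∀ f, H55T3.IsShaThree L W f → IsCobound L W f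

/-- Both curves are elliptic, `k` is unramified above three and `D` is not divisible by the square
of a prime above three. -/
def Admissible (k : Type) [Field k] [NumberField k] (D a b : 𝓞 k) : Prop :=
  D ≠ 0 ∧ b ≠ 0 ∧ 27 * b - 4 * D * a ^ 3 ≠ 0 ∧
    ∀ v : HeightOneSpectrum (𝓞 k), (3 : 𝓞 k) ∈ v.asIdeal →
      (3 : 𝓞 k) ∉ v.asIdeal ^ 2 ∧ D ∉ v.asIdeal ^ 2

/-- The good triples `(D, a, b)` at a prime `v` above three. -/
def Good {k : Type} [Field k] [NumberField k] (v : HeightOneSpectrum (𝓞 k)) (D a b : 𝓞 k) : Prop :=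
  (D ∉ v.asIdeal ∧ ∃ i : ℕ, a ∈ v.asIdeal ^ (i + 1) ∧
    27 * b - 4 * D * a ^ 3 ∈ v.asIdeal ^ (3 * i + 5) ∧ b ∉ v.asIdeal ^ (3 * i + 3)) ∨
  (D ∈ v.asIdeal ∧ ∃ i : ℕ, a ∈ v.asIdeal ^ (i + 1) ∧
    b ∈ v.asIdeal ^ (3 * i + 1) ∧ b ∉ v.asIdeal ^ (3 * i + 3))

/-- The curves `curve D a b` and `dual D a b` are stable in the tower over `k` from the level `N`
on. -/
def StableFrom (N p : ℕ) (k : Type) [Field k] [NumberField k] (D a b : 𝓞 k) : Prop :=
  ∀ (K L : Type) [Field K] [NumberField K] [Field L] [NumberField L]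
    [Algebra k K] [Algebra k L] [Algebra K L] [IsScalarTower k K L], Layer p k L →
    (∃ j : ℕ, Module.finrank K L = p ^ j) → p ^ N ∣ Module.finrank ℚ K →
      Stable K L (curve (algebraMap k K D) (algebraMap k K a) (algebraMap k K b)) ∧
        Stable K L (dual (algebraMap k K D) (algebraMap k K a) (algebraMap k K b))

/-- In the tower over `k` the product of the numbers of the classes of the points modulo `3` and of
the elements of order dividing `3` in the Tate-Shafarevich group of `dual D a b` is at least a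
constant times `q^[L : k]`. -/
def Grows (p : ℕ) (k : Type) [Field k] [NumberField k] (D a b : 𝓞 k) (q : ℕ) : Prop :=
  ∃ C : ℕ, ∀ (L : Type) [Field L] [NumberField L] [Algebra k L], Layer p k L →
    ∀ P T, RepresentsPoints L
        (dual (algebraMap k L D) (algebraMap k L a) (algebraMap k L b)) P →
      RepresentsSha L (dual (algebraMap k L D) (algebraMap k L a) (algebraMap k L b)) T →
        q ^ Module.finrank k L ≤ C * (P.card * T.card)

/-- Let `E : y^2 = x^3 + D (a x + b)^2` and `E' : y^2 = x^3 - 27 D (a x + 27 b - 4 D a^3)^2` be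
elliptic curves over a number field `k` which is unramified above three, with coefficients in the
ring of integers, `v^2 ∤ D` for all primes `v` above three, and let `p ≥ 5` be a prime. If `√D` is
in a field of three-type and all primes above three are good, then the three-primary parts of the
Tate-Shafarevich groups of `E` and `E'` are stable in the tower of the totally real fields between
`k` and `k(ζ_{p^∞})`; if `k` is totally real, `D` is totally positive and some primes above three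
are not good, then the three-Selmer group of `E'` grows like the power with exponent `[L : k]` of
the product of their norms. Every elliptic curve over the rationals with a rational subgroup of
order three is one of these curves, with `D` a positive integer, so it is stable in the tower for
all `p ≥ 5`, or there is growth for all `p ≥ 5`. For `p = 5`, `k = ℚ`, `D = 1` explicit stability
from the bottom on, and vanishing in all layers for a curve of rank at least two. -/
theorem result :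
    (∀ (k : Type) [Field k] [NumberField k] (D a b : 𝓞 k), Admissible k D a b →
      ∀ (p : ℕ) [Fact p.Prime], 5 ≤ p →
      (SquareThreeType k D → (∀ v : HeightOneSpectrum (𝓞 k), (3 : 𝓞 k) ∈ v.asIdeal →
        Good v D a b) → ∃ N : ℕ, StableFrom N p k D a b) ∧
      (IsTotallyReal k → (∀ φ : k →+* ℝ, 0 < φ D) → ∀ S : Finset (HeightOneSpectrum (𝓞 k)),
        (∀ v ∈ S, (3 : 𝓞 k) ∈ v.asIdeal ∧ ¬ Good v D a b) →
        Grows p k D a b (∏ v ∈ S, Ideal.absNorm v.asIdeal))) ∧
    (∀ (k : Type) [Field k] [NumberField k], ThreeType k → ∀ D : ℕ, D ≠ 0 →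
      SquareThreeType k (D : 𝓞 k)) ∧
    (∀ E : WeierstrassCurve ℚ, E.IsElliptic → (∃ x : ℚ, E.Ψ₃.eval x = 0) →
      ∃ (D : ℕ) (a b : ℤ) (u : VariableChange ℚ),
        (u • E = curve (D : ℚ) (a : ℚ) (b : ℚ) ∨ u • E = dual (D : ℚ) (a : ℚ) (b : ℚ)) ∧
        ((∀ (p : ℕ) [Fact p.Prime], 5 ≤ p → ∃ N : ℕ, StableFrom N p ℚ D a b) ∨
          (∀ (p : ℕ) [Fact p.Prime], 5 ≤ p → Grows p ℚ D a b 3))) ∧
    (∀ a b : ℤ, Admissible ℚ 1 a b →
      (∀ v : HeightOneSpectrum (𝓞 ℚ), (3 : 𝓞 ℚ) ∈ v.asIdeal → Good v 1 (a : 𝓞 ℚ) (b : 𝓞 ℚ)) →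
      (∀ q : ℕ, q.Prime → (q : ℤ) ∣ 6 * b * (27 * b - 4 * a ^ 3) → ¬ 25 ∣ q ^ 4 - 1) →
      StableFrom 0 5 ℚ 1 a b) ∧
    (∀ (L : Type) [Field L] [NumberField L], Layer 5 ℚ L → (∃ j : ℕ, Module.finrank ℚ L = 5 ^ j) →
      ShaThreeTrivial L (curve 1 (-15) 715)) ∧
    (∃ P Q : (curve 1 (-15 : ℚ) 715).toAffine.Point, ∀ m n : ℤ,
      m • P + n • Q = 0 → m = 0 ∧ n = 0) := by
  have eW : ∀ {K : Type} [Field K] (D a b : K), curve D a b = H55T3.curWD D a b :=
    fun _ _ _ => rfl
  have eV : ∀ {K : Type} [Field K] (D a b : K),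
      dual D a b = H55T3.curVD D a (27 * b - 4 * D * a ^ 3) := fun _ _ _ => rfl
  have eW1 : ∀ {K : Type} [Field K] (a b : K), curve 1 a b = H55T3.curW a b := by
    intro K _ a b
    simp [curve, H55T3.curW]
  have eV1 : ∀ {K : Type} [Field K] (a b : K),
      dual 1 a b = H55T3.curV a (27 * b - 4 * a ^ 3) := by
    intro K _ a b
    simp [dual, H55T3.curV]
  have hR : ∀ {L : Type} [Field L] [NumberField L] [Algebra ℚ L], Layer 5 ℚ L →
      H5SW.IsR 5 L := by
    intro L _ _ _ hL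
    obtain ⟨hreal, n, ⟨φ⟩⟩ := hL
    exact ⟨hreal, n, ⟨(φ : L →+* CyclotomicField (5 ^ (n + 1)) ℚ)⟩⟩
  have hA : ∀ (k : Type) [Field k] [NumberField k] (D a b : 𝓞 k), Admissible k D a b →
      ∀ (p : ℕ) [Fact p.Prime], 5 ≤ p →
      (SquareThreeType k D → (∀ v : HeightOneSpectrum (𝓞 k), (3 : 𝓞 k) ∈ v.asIdeal →
        Good v D a b) → ∃ N : ℕ, StableFrom N p k D a b) ∧
      (IsTotallyReal k → (∀ φ : k →+* ℝ, 0 < φ D) → ∀ S : Finset (HeightOneSpectrum (𝓞 k)),
        (∀ v ∈ S, (3 : 𝓞 k) ∈ v.asIdeal ∧ ¬ Good v D a b) →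
        Grows p k D a b (∏ v ∈ S, Ideal.absNorm v.asIdeal)) := by
    intro k _ _ D a b ⟨hD, hb, hc, hv⟩ p _ hp
    refine ⟨fun hκ hg => ?_, fun hk hpos S hS => ?_⟩
    swap
    · obtain ⟨C, hC⟩ := H55T3.growth_layD p hp hk (fun v h3 => (hv v h3).1) hpos
        (fun v h3 => (hv v h3).2) hb hc S (fun v h => (hS v h).1) (fun v h => (hS v h).2)
      exact ⟨C, fun L _ _ _ hL P T hP hT => hC L hL _ rfl P T hP hT⟩
    obtain ⟨κ, _, _, _, t, hκ, ht, hgen⟩ := H55T3.sq_gen (k := k) (D := (D : k)) hκ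
    obtain ⟨N, hN⟩ := H55T3.towerKD p hp hκ hgen ht hD (fun v h3 => (hv v h3).1)
      (fun v h3 => (hv v h3).2) hb hc hg
    refine ⟨N, ?_⟩
    intro K L _ _ _ _ _ _ _ _ hL hj hK
    have h := hN K L hL hj hK
    refine ⟨h _ (Or.inl (eW _ _ _)), h _ (Or.inr ?_)⟩
    rw [eV]
    congr 1
    have : ((27 * b - 4 * D * a ^ 3 : 𝓞 k) : k) = 27 * (b : k) - 4 * (D : k) * (a : k) ^ 3 :=
      H55T3.coe_gammaO
    rw [this, map_sub, map_mul, map_mul, map_mul, map_pow, map_ofNat, map_ofNat]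
  have hB : ∀ (k : Type) [Field k] [NumberField k], ThreeType k → ∀ D : ℕ, D ≠ 0 →
      SquareThreeType k (D : 𝓞 k) := by
    intro k _ _ hk D hD
    obtain ⟨κ, _, _, _, t, hκ, ht⟩ := H55T3.sqType_nat hk hD
    exact ⟨κ, inferInstance, inferInstance, inferInstance, t, hκ, by
      rw [ht]
      congr 1⟩
  refine ⟨hA, hB, ?_, ?_, ?_, ?_⟩
  · intro E hE ⟨x, hx⟩
    obtain ⟨u, D, a, b, hsq, hb, hc, hu⟩ := H55T3.normal_form E hE hx
    refine ⟨D, a, b, u, hu, ?_⟩
    have hb' : (b : 𝓞 ℚ) ≠ 0 := by exact_mod_cast hb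
    have hc' : 27 * (b : 𝓞 ℚ) - 4 * (D : 𝓞 ℚ) * (a : 𝓞 ℚ) ^ 3 ≠ 0 := by exact_mod_cast hc
    have hD' : (D : 𝓞 ℚ) ≠ 0 := by exact_mod_cast hsq.ne_zero
    have hadm : Admissible ℚ (D : 𝓞 ℚ) (a : 𝓞 ℚ) (b : 𝓞 ℚ) :=
      ⟨hD', hb', hc', fun v h3 => ⟨H55T3.unr3_rat v h3, H55T3.rat_sqf hsq h3⟩⟩
    by_cases hg : ∀ v : HeightOneSpectrum (𝓞 ℚ), (3 : 𝓞 ℚ) ∈ v.asIdeal →
        Good v (D : 𝓞 ℚ) (a : 𝓞 ℚ) (b : 𝓞 ℚ)
    · exact Or.inl fun p _ hp => (hA ℚ _ _ _ hadm p hp).1
        (hB ℚ H55T3.lType_rat D hsq.ne_zero) hg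
    · right
      intro p _ hp
      push Not at hg
      obtain ⟨v, h3, hv⟩ := hg
      have h1 := (hA ℚ _ _ _ hadm p hp).2 inferInstance (fun φ => by
        have e : ((D : 𝓞 ℚ) : ℚ) = (D : ℚ) := map_natCast (algebraMap (𝓞 ℚ) ℚ) D
        rw [e, map_natCast]
        exact_mod_cast Nat.pos_of_ne_zero hsq.ne_zero) {v} (fun w hw => by
          rw [Finset.mem_singleton] at hw
          rw [hw]
          exact ⟨h3, hv⟩)
      rwa [Finset.prod_singleton, H55T3.rat_norm h3] at h1
  · intro a b hadm hg hq K L _ _ _ _ _ _ _ _ hL ⟨j, hj⟩ _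
    obtain ⟨v, h3⟩ := H55T3.exists_rat3
    have hb : b ≠ 0 := by exact_mod_cast hadm.2.1
    have hc : 27 * b - 4 * a ^ 3 ≠ 0 := by
      have h := hadm.2.2.1
      rw [mul_one] at h
      exact_mod_cast h
    have hgi : ∃ i : ℕ, (3 : ℤ) ^ (i + 1) ∣ a ∧ (3 : ℤ) ^ (3 * i + 5) ∣ 27 * b - 4 * a ^ 3 ∧
        ¬ (3 : ℤ) ^ (3 * i + 3) ∣ b := by
      rcases hg v h3 with ⟨-, i, h1, h2, h4⟩ | ⟨h1, -⟩
      · refine ⟨i, (H55T3.rat_mem h3 _ _).1 h1, (H55T3.rat_mem h3 _ _).1 ?_,
          fun h => h4 ((H55T3.rat_mem h3 _ _).2 h)⟩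
        rw [mul_one] at h2
        push_cast
        exact h2
      · exact absurd ((Ideal.eq_top_iff_one _).2 h1) v.isPrime.ne_top
    obtain ⟨h3n, _, h⟩ := H55T3.explicit6 hb hc hgi hq K L (hR hL) hj
    have e1 : algebraMap ℚ K ((1 : 𝓞 ℚ) : ℚ) = 1 := by
      have e : ((1 : 𝓞 ℚ) : ℚ) = 1 := map_one (algebraMap (𝓞 ℚ) ℚ)
      rw [e, map_one]
    have ez : ∀ n : ℤ, algebraMap ℚ K ((n : 𝓞 ℚ) : ℚ) = (n : K) := by
      intro n
      have e : ((n : 𝓞 ℚ) : ℚ) = n := map_intCast (algebraMap (𝓞 ℚ) ℚ) n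
      rw [e, map_intCast]
    rw [e1, ez, ez]
    refine ⟨?_, ?_⟩
    · obtain ⟨h1, h2⟩ := h (curve 1 (a : K) (b : K)) (Or.inl (eW1 _ _))
      exact H55T3.of_ct3 h3n h1 h2
    · obtain ⟨h1, h2⟩ := h (dual 1 (a : K) (b : K)) (Or.inr (by rw [eV1]; push_cast; rfl))
      exact H55T3.of_ct3 h3n h1 h2
  · intro L _ _ hL ⟨j, hj⟩
    rw [eW1]
    exact H55T3.fam2 (hR hL) hj
  · rw [eW1]
    exact H55T3.rank2

end Pool.Agent.H55.Parked.ThreeIsogenyExplicit
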